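import Pool.Agent.Helper93.PL.St

/-!
# Project PL, module LWB: bounds for the mixed Poisson law
-/

set_option autoImplicit false

namespace Pool.Agent.Helper1.PL

open Finset
open Pool.Agent.Helper61.PV
open Pool.Agent.Helper93.PL

private theorem two_le {w : ℕ} (p : Pw w) : 2 ≤ p.1 := by
  have h := p.2
  unfold Pw at h
  exact (mem_filter.1 h).2.two_le

private theorem inv_lt {p : ℕ} (hp : 2 ≤ p) : 0 < 1 / (p : ℝ) ∧ 1 / (p : ℝ) ≤ 1 / 2 := by
  have h : (2 : ℝ) ≤ p := by exact_mod_cast hp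
  constructor
  · positivity
  · exact one_div_le_one_div_of_le (by norm_num) h

private theorem pow_lt {p : ℕ} (hp : 2 ≤ p) : 0 < (1 / (p : ℝ)) ^ p ∧ (1 / (p : ℝ)) ^ p < 1 := by
  obtain ⟨h1, h2⟩ := inv_lt hp
  constructor
  · positivity
  · exact pow_lt_one₀ h1.le (by linarith) (by omega)

private theorem bw_self (p : ℕ) : bw p p = (1 / (p : ℝ)) ^ p := by
  unfold bw
  rw [Nat.choose_self, Nat.sub_self, pow_zero]
  simp

private theorem bw_nonneg {p : ℕ} (hp : 2 ≤ p) (n : ℕ) : 0 ≤ bw p n := by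
  obtain ⟨h1, h2⟩ := inv_lt hp
  unfold bw
  have h3 : 0 ≤ 1 - 1 / (p : ℝ) := by linarith
  positivity

private theorem sum_one (hBm1 : StBm1) {p : ℕ} (hp : 2 ≤ p) :
    ∑ n ∈ range p, bw p n / (1 - (1 / (p : ℝ)) ^ p) = 1 := by
  have h1 := (hBm1 p hp).1
  rw [sum_range_succ, bw_self] at h1
  obtain ⟨h2, h3⟩ := pow_lt hp
  rw [← sum_div, div_eq_one_iff_eq (by linarith)]
  linarith

theorem hLwb (hSer : StSer) (hBm1 : StBm1) : Pool.Agent.Helper93.PL.StLwb := by
  intro w j x hx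
  have hg : ∀ (p : Pw w) (n : ℕ), 0 ≤ bw p.1 n / (1 - (1 / (p.1 : ℝ)) ^ p.1) := by
    intro p n
    have h1 := pow_lt (two_le p)
    exact div_nonneg (bw_nonneg (two_le p) n) (by linarith [h1.2])
  have hpr : ∀ n : Pw w → ℕ, 0 ≤ ∏ p : Pw w, bw p.1 (n p) / (1 - (1 / (p.1 : ℝ)) ^ p.1) :=
    fun n => prod_nonneg fun p _ => hg p (n p)
  have heu : ∀ n ∈ Fintype.piFinset (fun p : Pw w => range p.1), 0 ≤ x * eu n := by
    intro n hn
    refine mul_nonneg hx ?_
    unfold eu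
    refine prod_nonneg fun p _ => ?_
    have h1 : n p < p.1 := mem_range.1 (Fintype.mem_piFinset.1 hn p)
    have h2 := inv_lt (two_le p)
    have h3 : (0 : ℝ) < p.1 := by
      have := two_le p
      positivity
    refine div_nonneg ?_ (by linarith [h2.2])
    rw [sub_nonneg, div_le_one h3]
    exact_mod_cast h1.le
  have hsum : ∑ n ∈ Fintype.piFinset (fun p : Pw w => range p.1),
      (∏ p : Pw w, bw p.1 (n p) / (1 - (1 / (p.1 : ℝ)) ^ p.1)) = 1 := by
    rw [← prod_univ_sum (fun p : Pw w => range p.1)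
      (fun (p : Pw w) n => bw p.1 n / (1 - (1 / (p.1 : ℝ)) ^ p.1))]
    exact prod_eq_one fun p _ => sum_one hBm1 (two_le p)
  refine ⟨?_, ?_, ?_, ?_⟩
  · unfold LawW
    exact sum_nonneg fun n hn => mul_nonneg (hpr n) (hSer.2.1 j _ (heu n hn)).1
  · unfold LawW
    refine le_trans (sum_le_sum fun n hn => ?_) hsum.le
    exact mul_le_of_le_one_right (hpr n) (hSer.2.1 j _ (heu n hn)).2
  · unfold Pst
    refine prod_nonneg fun p _ => ?_
    have h1 := pow_lt (two_le p)
    linarith [h1.2]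
  · unfold Pst
    refine prod_le_one (fun p _ => ?_) (fun p _ => ?_)
    · have h1 := pow_lt (two_le p)
      linarith [h1.2]
    · have h1 := pow_lt (two_le p)
      linarith [h1.1]

end Pool.Agent.Helper1.PL
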